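import Pool.Agent.H374Z.RS.Basic

set_option autoImplicit false
set_option linter.unusedSectionVars false

namespace Pool.Agent.H374Z.RS

open Matrix Finset Pool.Agent.H304Z.NH
open scoped MatrixOrder ComplexOrder

variable {n : Type} [Fintype n] [DecidableEq n]

namespace Res

variable {L : ℝ} {Q R R' U : Mat n}

theorem plus (h : Res L Q R) (h' : Res L (Q + U) R') (hU : IsProj U) (e b : Mat n)
    (hb : b * U = b) :
    tr ((e + b) * R' * (e + b)ᴴ) ≤ tr (e * R * eᴴ) - nsq (e * R * U) / 8 + 10 * nsq b := by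
  have h1 := tr_mono (cjle (h.W h' hU) (e + b))
  have hb' : U * bᴴ = bᴴ := by rw [← hU.1, ← conjTranspose_mul, hb]
  have h2 : tr ((e + b) * (R * U * R) * (e + b)ᴴ) = nsq (e * R * U + b * (R * U)) := by
    rw [nsq_eq, mul_assoc e, ← add_mul, conjTranspose_mul, conjTranspose_mul, hU.1, h.hR]
    simp only [mul_assoc, ← mul_assoc U U, hU.2]
  have h3 : tr (e * R * bᴴ) = tr (bᴴ * (e * R * U)) := by
    rw [tr_comm bᴴ, mul_assoc _ U, hb']
  have h4 : tr (b * R * eᴴ) = tr (e * R * bᴴ) := by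
    rw [← tr_ct, conjTranspose_mul, conjTranspose_mul, conjTranspose_conjTranspose, h.hR, mul_assoc]
  have h5 : tr (b * R * bᴴ) ≤ nsq b := by
    simpa only [nsq_eq, mul_one] using tr_mono (cjle (sub_nonneg.1 h.le_one) b)
  have h6 : nsq (b * (R * U)) ≤ nsq b := by
    rw [← mul_assoc]
    refine (nsq_mul_right ?_ _).trans (nsq_mul_right ?_ _)
    · rw [hU.1, hU.2]; exact sub_nonneg.1 (proj_le hU)
    · rw [h.hR]; exact h.sq_le_one
  have h7 : tr ((e + b) * R * (e + b)ᴴ) = tr (e * R * eᴴ) + tr (e * R * bᴴ) + tr (b * R * eᴴ)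
      + tr (b * R * bᴴ) := by
    simp only [conjTranspose_add, add_mul, mul_add, tr_add]
    ring
  rw [mul_sub, sub_mul, mul_smul_comm, smul_mul_assoc, tr_sub, tr_smul, h2, h7, h4, h3,
    nsq_add] at h1
  have h8 := amgm 8 b (e * R * U)
  have h9 := amgm (-1 / 2) (e * R * U) (b * (R * U))
  linarith [nsq_nonneg b]

theorem minus (h : Res L Q R) (s : Finset ℕ) (V w : ℕ → Mat n) (hV : ∀ i, IsProj (V i))
    (hQ : Q = ∑ i ∈ s, V i) : nsq (R * ∑ i ∈ s, V i * w i) ≤ ∑ i ∈ s, nsq (w i) := by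
  obtain ⟨z, hz⟩ : ∃ z, z = R * ∑ i ∈ s, V i * w i := ⟨_, rfl⟩
  have h1 : nsq z = ∑ i ∈ s, tr ((V i * R * z)ᴴ * w i) := by
    rw [← tr_sum, nsq]
    congr 1
    conv_lhs => rw [hz, ← hz]
    nth_rewrite 2 [hz]
    simp only [mul_sum, conjTranspose_mul, (hV _).1, h.hR, mul_assoc]
  have h2 : ∑ i ∈ s, nsq (V i * R * z) ≤ nsq z := by
    have h3 : ∑ i ∈ s, nsq (V i * R * z) = tr (zᴴ * (R * Q * R) * zᴴᴴ) := by
      simp only [hQ, nsq, ← tr_sum, mul_sum, sum_mul, conjTranspose_mul, (hV _).1, h.hR, mul_assoc,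
        conjTranspose_conjTranspose, ← mul_assoc (V _) (V _), (hV _).2]
    rw [h3]
    simpa only [nsq, mul_one, conjTranspose_conjTranspose] using tr_mono (cjle h.rqr_le zᴴ)
  have h4 : ∑ i ∈ s, 2 * 1 * tr ((V i * R * z)ᴴ * w i)
      ≤ ∑ i ∈ s, (1 ^ 2 * nsq (V i * R * z) + nsq (w i)) := sum_le_sum fun i _ => amgm 1 _ _
  rw [← mul_sum, ← h1, sum_add_distrib, ← mul_sum] at h4
  rw [← hz]
  linarith

theorem cm_eq (h : Res L Q R) (u : Mat n) : cm u R = (-L) • (R * cm u Q * R) := by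
  have h1 : R * (1 + L • Q) * u * R - R * u * ((1 + L • Q) * R) = (-L) • (R * cm u Q * R) := by
    simp only [cm, mul_add, add_mul, mul_sub, sub_mul, smul_mul_assoc, mul_smul_comm, mul_assoc,
      one_mul, mul_one]
    module
  rwa [h.l, h.r, one_mul, mul_one] at h1

end Res

theorem nsq_cm {U : Mat n} (hU : IsProj U) (u : Mat n) :
    nsq ((1 - U) * u * U) + nsq (U * u * (1 - U)) = nsq (cm u U) := by
  have h1 : cm u U = (1 - U) * u * U - U * u * (1 - U) := by unfold cm; noncomm_ring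
  have h2 : ((1 - U) * u * U)ᴴ * (U * u * (1 - U)) = 0 := by
    have : (1 - U) * U = 0 := by rw [sub_mul, one_mul, hU.2, sub_self]
    rw [conjTranspose_mul, conjTranspose_mul, conjTranspose_sub, conjTranspose_one, hU.1]
    simp only [mul_assoc, ← mul_assoc (1 - U) U, this, zero_mul, mul_zero]
  rw [h1, nsq_sub, h2, tr_zero]
  ring

theorem rs : S_RS := by
  intro n _ _ U hU L hL
  have hQ : ∀ j, 0 ≤ ∑ i ∈ range j, U i := fun j => sum_nonneg fun i _ => proj_nn (hU i)
  choose R hR using fun j => exists_res hL (hQ j)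
  have hR' : ∀ j, Res L (∑ i ∈ range j, U i + U j) (R (j + 1)) := fun j => by
    have := hR (j + 1)
    rwa [sum_range_succ] at this
  have h0 : R 0 = 1 := by simpa using (hR 0).l
  have hW : ∀ N, ∑ j ∈ range N, R j * U j * R j ≤ (2 : ℝ) • (1 : Mat n) := by
    intro N
    have h1 : ∀ N, R N ≤ 1 - (1 / 2 : ℝ) • ∑ j ∈ range N, R j * U j * R j := by
      intro N
      induction N with
      | zero => simp [h0]
      | succ N ih =>
        rw [sum_range_succ, smul_add, ← sub_sub]
        exact ((hR N).W (hR' N) (hU N)).trans (sub_le_sub_right ih _)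
    have h2 := smul_nn (r := 2) (by norm_num) ((hR N).nn.trans (h1 N))
    rw [smul_sub, smul_smul] at h2
    simpa using h2
  refine ⟨R, fun j => ⟨(hR j).nn, sub_nonneg.1 (hR j).le_one, (hR j).one_sub_sq⟩,
    fun N => ⟨hW N, ?_, fun u _ => ?_⟩⟩
  · have h1 : ∀ N, tr (1 - R N) ≤ L / (1 + L) * (tr (∑ i ∈ range N, U i)
        - L * ∑ j ∈ range N, tr (U j * (R j * (∑ i ∈ range j, U i) * R j))) := by
      intro N
      induction N with
      | zero => simp [h0, tr_zero]
      | succ N ih =>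
        have h2 := (hR N).upper (hR' N) (hU N)
        rw [sum_range_succ, sum_range_succ, tr_add]
        rw [tr_sub] at *
        linarith
    have h2 := (hR N).lower.trans (h1 N)
    have h3 : 0 ≤ ∑ j ∈ range N, tr (U j * (R j * (∑ i ∈ range j, U i) * R j)) :=
      sum_nonneg fun j _ => tr_mul_nonneg (proj_nn (hU j)) (cj' (hQ j) (hR j).hR)
    have c0 : 0 < L / (1 + L) := by positivity
    have c1 : L / (1 + L) ≤ 1 := by rw [div_le_one (by linarith)]; linarith
    rw [le_div_iff₀ (by linarith)]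
    generalize L / (1 + L) = c at *
    generalize ∑ j ∈ range N, tr (U j * (R j * (∑ i ∈ range j, U i) * R j)) = X at *
    generalize nsq (∑ i ∈ range N, U i) - tr (∑ i ∈ range N, U i) = Y at *
    have h4 : X * L ≤ c * Y := le_of_mul_le_mul_left (by linarith) c0
    have h5 : 0 ≤ X * L := mul_nonneg h3 (by linarith)
    have h6 : 0 ≤ Y := nonneg_of_mul_nonneg_right (h5.trans h4) c0 |> fun h => by
      by_contra h7
      nlinarith
    nlinarith
  · obtain ⟨p, hp⟩ : ∃ p : ℕ → Mat n, p = fun i => (1 - U i) * u * U i := ⟨_, rfl⟩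
    obtain ⟨m, hm⟩ : ∃ m : ℕ → Mat n, m = fun i => U i * u * (1 - U i) := ⟨_, rfl⟩
    have hpU : ∀ i, p i * U i = p i := fun i => by rw [hp]; simp only [mul_assoc, (hU i).2]
    have hUm : ∀ i, U i * m i = m i := fun i => by rw [hm]; simp only [← mul_assoc, (hU i).2]
    have hcm : ∀ j, cm u (∑ i ∈ range j, U i) = ∑ i ∈ range j, p i - ∑ i ∈ range j, m i := by
      intro j
      rw [cm, mul_sum, sum_mul, ← sum_sub_distrib, ← sum_sub_distrib, hp, hm]
      exact sum_congr rfl fun i _ => by noncomm_ring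
    have h1 : ∀ N, tr ((∑ i ∈ range N, p i) * R N * (∑ i ∈ range N, p i)ᴴ)
        ≤ 10 * ∑ i ∈ range N, nsq (p i)
          - (∑ j ∈ range N, nsq ((∑ i ∈ range j, p i) * R j * U j)) / 8 := by
      intro N
      induction N with
      | zero => simp [tr_zero]
      | succ N ih =>
        have h2 := (hR N).plus (hR' N) (hU N) (∑ i ∈ range N, p i) (p N) (hpU N)
        rw [sum_range_succ, sum_range_succ, sum_range_succ]
        linarith
    have h2 := (tr_nonneg (star_right_conjugate_nonneg (hR N).nn _)).trans (h1 N)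
    have h3 : ∀ j ∈ range N, nsq (cm u (R j) * U j) ≤
        L ^ 2 * (2 * nsq ((∑ i ∈ range j, p i) * R j * U j)
          + 2 * ∑ i ∈ range N, nsq (m i * R j * U j)) := by
      intro j hj
      have e1 : R j * cm u (∑ i ∈ range j, U i) * R j * U j
          = R j * ((∑ i ∈ range j, p i) * R j * U j)
            - R j * ∑ i ∈ range j, U i * (m i * R j * U j) := by
        simp only [hcm, mul_sub, sub_mul, ← mul_assoc, hUm, ← sum_mul]
      rw [(hR j).cm_eq, smul_mul_assoc, nsq_smul, neg_sq, e1]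
      refine mul_le_mul_of_nonneg_left ((nsq_sub_le _ _).trans ?_) (sq_nonneg L)
      have e2 := nsq_mul_left (w := R j) (by rw [(hR j).hR]; exact (hR j).sq_le_one)
        ((∑ i ∈ range j, p i) * R j * U j)
      have e3 := (hR j).minus (range j) U (fun i => m i * R j * U j) hU rfl
      have e4 : ∑ i ∈ range j, nsq (m i * R j * U j) ≤ ∑ i ∈ range N, nsq (m i * R j * U j) :=
        sum_le_sum_of_subset_of_nonneg (range_mono (mem_range.1 hj).le) fun i _ _ => nsq_nonneg _
      linarith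
    have h4 : ∑ j ∈ range N, ∑ i ∈ range N, nsq (m i * R j * U j)
        ≤ 2 * ∑ i ∈ range N, nsq (m i) := by
      rw [sum_comm, mul_sum]
      refine sum_le_sum fun i _ => ?_
      have e1 := tr_mono (cjle (hW N) (m i))
      rw [mul_smul_comm, smul_mul_assoc, tr_smul, mul_one, ← nsq_eq, mul_sum, sum_mul, tr_sum] at e1
      refine le_trans (le_of_eq (sum_congr rfl fun j _ => ?_)) e1
      rw [nsq_eq, conjTranspose_mul, conjTranspose_mul, (hU j).1, (hR j).hR]
      simp only [mul_assoc, ← mul_assoc (U j) (U j), (hU j).2]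
    have h5 : ∑ j ∈ range N, nsq (cm u (U j))
        = ∑ i ∈ range N, nsq (p i) + ∑ i ∈ range N, nsq (m i) := by
      rw [← sum_add_distrib, hp, hm]
      exact sum_congr rfl fun i _ => (nsq_cm (hU i) u).symm
    have h6 : 0 ≤ ∑ i ∈ range N, nsq (p i) := sum_nonneg fun i _ => nsq_nonneg _
    have h7 : 0 ≤ ∑ i ∈ range N, nsq (m i) := sum_nonneg fun i _ => nsq_nonneg _
    refine (sum_le_sum h3).trans ?_
    rw [← mul_sum, sum_add_distrib, ← mul_sum, ← mul_sum, h5, mul_comm 200, mul_assoc]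
    exact mul_le_mul_of_nonneg_left (by linarith) (sq_nonneg L)

end Pool.Agent.H374Z.RS
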