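import Pool.Agent.H304Z.NH.Spec

set_option autoImplicit false
set_option linter.unusedSectionVars false

namespace Pool.Agent.H374Z.RS

open Matrix Finset Pool.Agent.H304Z.NH
open scoped MatrixOrder ComplexOrder

variable {n : Type} [Fintype n] [DecidableEq n]

theorem tr_add (x y : Mat n) : tr (x + y) = tr x + tr y := by simp [tr]
theorem tr_sub (x y : Mat n) : tr (x - y) = tr x - tr y := by simp [tr]
theorem tr_zero : tr (0 : Mat n) = 0 := by simp [tr]
theorem tr_smul (r : ℝ) (x : Mat n) : tr (r • x) = r * tr x := by simp [tr]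
theorem tr_comm (x y : Mat n) : tr (x * y) = tr (y * x) := by rw [tr, tr, trace_mul_comm]
theorem tr_ct (x : Mat n) : tr xᴴ = tr x := by simp [tr, trace_conjTranspose]
theorem tr_sum {ι : Type} (s : Finset ι) (f : ι → Mat n) :
    tr (∑ i ∈ s, f i) = ∑ i ∈ s, tr (f i) := by simp [tr, trace_sum]

theorem tr_nonneg {x : Mat n} (h : 0 ≤ x) : 0 ≤ tr x :=
  (Complex.nonneg_iff.1 (nonneg_iff_posSemidef.1 h).trace_nonneg).1

theorem tr_mono {x y : Mat n} (h : x ≤ y) : tr x ≤ tr y := by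
  have := tr_nonneg (sub_nonneg.2 h)
  rw [tr_sub] at this
  linarith

theorem cj {x : Mat n} (h : 0 ≤ x) (b : Mat n) : 0 ≤ bᴴ * x * b :=
  star_left_conjugate_nonneg h b

theorem cj' {x b : Mat n} (h : 0 ≤ x) (hb : bᴴ = b) : 0 ≤ b * x * b := by
  simpa only [hb] using cj h b

theorem cjle {x y : Mat n} (h : x ≤ y) (b : Mat n) : b * x * bᴴ ≤ b * y * bᴴ :=
  star_right_conjugate_le_conjugate h b

theorem sq_nn {b : Mat n} (hb : bᴴ = b) : 0 ≤ b * b := by
  simpa only [star_eq_conjTranspose, hb] using star_mul_self_nonneg b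

theorem one_nn : (0 : Mat n) ≤ 1 := by
  simpa only [mul_one] using sq_nn (b := (1 : Mat n)) conjTranspose_one

theorem smul_nn {r : ℝ} {x : Mat n} (hr : 0 ≤ r) (h : 0 ≤ x) : 0 ≤ r • x :=
  nonneg_iff_posSemidef.2 ((nonneg_iff_posSemidef.1 h).smul hr)

theorem herm {x : Mat n} (h : 0 ≤ x) : xᴴ = x := (nonneg_iff_posSemidef.1 h).isHermitian

theorem ct_smul (r : ℝ) (x : Mat n) : (r • x)ᴴ = r • xᴴ := by
  rw [conjTranspose_smul, star_trivial]

theorem tr_mul_nonneg {x y : Mat n} (hx : 0 ≤ x) (hy : 0 ≤ y) : 0 ≤ tr (x * y) := by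
  obtain ⟨b, rfl⟩ := CStarAlgebra.nonneg_iff_eq_star_mul_self.1 hx
  rw [mul_assoc, tr_comm]
  exact tr_nonneg (star_right_conjugate_nonneg hy b)

theorem nsq_nonneg (x : Mat n) : 0 ≤ nsq x := tr_nonneg (star_mul_self_nonneg x)

theorem nsq_eq (x : Mat n) : nsq x = tr (x * xᴴ) := tr_comm _ _

theorem tr_symm (x y : Mat n) : tr (yᴴ * x) = tr (xᴴ * y) := by
  rw [← tr_ct, conjTranspose_mul, conjTranspose_conjTranspose]

theorem nsq_add (x y : Mat n) : nsq (x + y) = nsq x + 2 * tr (xᴴ * y) + nsq y := by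
  simp only [nsq, conjTranspose_add, add_mul, mul_add, tr_add, tr_symm x y]
  ring

theorem nsq_sub (x y : Mat n) : nsq (x - y) = nsq x - 2 * tr (xᴴ * y) + nsq y := by
  simp only [nsq, conjTranspose_sub, sub_mul, mul_sub, tr_sub, tr_symm x y]
  ring

theorem nsq_smul (r : ℝ) (x : Mat n) : nsq (r • x) = r ^ 2 * nsq x := by
  simp only [nsq, ct_smul, smul_mul_assoc, mul_smul_comm, tr_smul]
  ring

theorem amgm (c : ℝ) (x y : Mat n) : 2 * c * tr (xᴴ * y) ≤ c ^ 2 * nsq x + nsq y := by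
  have h := nsq_nonneg (c • x - y)
  rw [nsq_sub, nsq_smul, ct_smul, smul_mul_assoc, tr_smul] at h
  linarith

theorem nsq_sub_le (x y : Mat n) : nsq (x - y) ≤ 2 * nsq x + 2 * nsq y := by
  have := amgm (-1) x y
  rw [nsq_sub]
  linarith

theorem nsq_mul_left {w : Mat n} (h : wᴴ * w ≤ 1) (x : Mat n) : nsq (w * x) ≤ nsq x := by
  have h1 := tr_mono (cjle h xᴴ)
  simpa only [nsq, conjTranspose_mul, conjTranspose_conjTranspose, mul_assoc, one_mul] using h1

theorem nsq_mul_right {w : Mat n} (h : w * wᴴ ≤ 1) (x : Mat n) : nsq (x * w) ≤ nsq x := by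
  have h1 := tr_mono (cjle h x)
  simpa only [nsq_eq, conjTranspose_mul, mul_assoc, one_mul] using h1

theorem proj_nn {U : Mat n} (h : IsProj U) : 0 ≤ U := h.2 ▸ sq_nn h.1

theorem proj_le {U : Mat n} (h : IsProj U) : 0 ≤ 1 - U := by
  have h1 : (1 - U) * (1 - U) = 1 - U := by
    simp only [mul_sub, sub_mul, mul_one, one_mul, h.2]; abel
  rw [← h1]
  exact sq_nn (by rw [conjTranspose_sub, conjTranspose_one, h.1])

/-- `R` is the inverse of `1 + L Q` -/
structure Res (L : ℝ) (Q R : Mat n) : Prop where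
  hL : 1 ≤ L
  hQ : 0 ≤ Q
  hR : Rᴴ = R
  l : R * (1 + L • Q) = 1
  r : (1 + L • Q) * R = 1

theorem exists_res {L : ℝ} (hL : 1 ≤ L) {Q : Mat n} (hQ : 0 ≤ Q) : ∃ R, Res L Q R := by
  have h1 : (1 + L • Q).PosDef :=
    PosDef.one.add_posSemidef (nonneg_iff_posSemidef.1 (smul_nn (by linarith) hQ))
  have h2 := (isUnit_iff_isUnit_det _).1 h1.isUnit
  exact ⟨(1 + L • Q)⁻¹, hL, hQ, h1.inv.isHermitian, nonsing_inv_mul _ h2, mul_nonsing_inv _ h2⟩

namespace Res

variable {L : ℝ} {Q R R' U : Mat n}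

theorem rq (h : Res L Q R) : L • (R * Q) = 1 - R := by
  have := h.l
  rw [mul_add, mul_one, mul_smul_comm] at this
  rw [← this]; abel

theorem qr (h : Res L Q R) : L • (Q * R) = 1 - R := by
  have := h.r
  rw [add_mul, one_mul, smul_mul_assoc] at this
  rw [← this]; abel

theorem nn (h : Res L Q R) : 0 ≤ R := by
  have h1 := cj' (add_nonneg one_nn (smul_nn (by linarith [h.hL]) h.hQ) :
    (0 : Mat n) ≤ 1 + L • Q) h.hR
  rwa [h.l, one_mul] at h1

theorem rqr (h : Res L Q R) : L • (R * Q * R) = R - R * R := by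
  rw [← smul_mul_assoc, h.rq, sub_mul, one_mul]

theorem sq_le (h : Res L Q R) : 0 ≤ R - R * R :=
  h.rqr ▸ smul_nn (by linarith [h.hL]) (cj' h.hQ h.hR)

theorem herm1 (h : Res L Q R) : (1 - R)ᴴ = 1 - R := by
  rw [conjTranspose_sub, conjTranspose_one, h.hR]

theorem le_one (h : Res L Q R) : 0 ≤ 1 - R := by
  have h1 : 1 - R = (1 - R) * (1 - R) + (R - R * R) := by noncomm_ring
  rw [h1]
  exact add_nonneg (sq_nn h.herm1) h.sq_le

theorem sq_le_one (h : Res L Q R) : R * R ≤ 1 :=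
  (sub_nonneg.1 h.sq_le).trans (sub_nonneg.1 h.le_one)

theorem rqr_le (h : Res L Q R) : R * Q * R ≤ 1 := by
  have h1 : 1 - R * Q * R = (1 - R) + R * R + (L - 1) • (R * Q * R) := by
    rw [sub_smul, h.rqr, one_smul]; abel
  rw [← sub_nonneg, h1]
  exact add_nonneg (add_nonneg h.le_one (sq_nn h.hR))
    (smul_nn (by linarith [h.hL]) (cj' h.hQ h.hR))

theorem one_sub_sq (h : Res L Q R) : 1 - R * R ≤ (2 * L) • Q := by
  have h1 : (L * L) • (Q * R * Q) = L • Q - (1 - R) := by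
    rw [mul_smul, ← smul_mul_assoc, h.qr, sub_mul, one_mul, smul_sub, h.rq]
  have h2 : (2 * L) • Q - (1 - R * R)
      = (2 : ℝ) • ((L * L) • (Q * R * Q)) + (1 - R) * (1 - R) := by
    rw [h1]
    simp only [mul_sub, sub_mul, mul_one, one_mul]
    module
  rw [← sub_nonneg, h2]
  exact add_nonneg (smul_nn (by norm_num) (smul_nn (mul_self_nonneg L) (cj' h.nn (herm h.hQ))))
    (sq_nn h.herm1)

theorem diff (h : Res L Q R) (h' : Res L (Q + U) R') : R - R' = L • (R' * U * R) := by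
  have h1 : R' * (1 + L • (Q + U)) * R - R' * ((1 + L • Q) * R) = L • (R' * U * R) := by
    simp only [mul_add, add_mul, smul_add, smul_mul_assoc, mul_smul_comm, mul_assoc]
    module
  rwa [h'.l, h.r, one_mul, mul_one] at h1

theorem diff' (h : Res L Q R) (h' : Res L (Q + U) R') : R - R' = L • (R * U * R') := by
  have h1 : R * ((1 + L • (Q + U)) * R') - R * (1 + L • Q) * R' = L • (R * U * R') := by
    simp only [mul_add, add_mul, smul_add, smul_mul_assoc, mul_smul_comm, mul_assoc]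
    module
  rwa [h'.r, h.l, one_mul, mul_one] at h1

theorem W (h : Res L Q R) (h' : Res L (Q + U) R') (hU : IsProj U) :
    R' ≤ R - (1 / 2 : ℝ) • (R * U * R) := by
  have hL := h.hL
  have h0 : R' * (1 + L • Q) = 1 - L • (R' * U) := by
    rw [eq_sub_iff_add_eq, ← mul_smul_comm, ← mul_add, add_assoc, ← smul_add, h'.l]
  have h1 : (R - R') * (1 + L • Q) * (R - R') = R - R' - L • (R' * U * R') := by
    rw [sub_mul R, h.l, h0, sub_sub_cancel, smul_mul_assoc, mul_sub, smul_sub, ← h.diff h']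
  obtain ⟨D, hD⟩ : ∃ D, D = R - R' := ⟨_, rfl⟩
  have hR : R = D + R' := by rw [hD]; abel
  have hDh : Dᴴ = D := by rw [hD, conjTranspose_sub, h.hR, h'.hR]
  rw [← hD] at h1
  have h2 : R - (1 / 2 : ℝ) • (R * U * R) - R' = D * ((1 - U) + L • Q) * D
      + (1 + L)⁻¹ • ((D - L • R') * U * (D - L • R')) + (L / (1 + L) - 1 / 2) • (R * U * R) := by
    have h3 : D * ((1 - U) + L • Q) * D = D * (1 + L • Q) * D - D * U * D := by
      simp only [mul_add, add_mul, mul_sub, sub_mul]; abel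
    rw [h3, h1, hR]
    simp only [mul_add, add_mul, mul_sub, sub_mul, smul_mul_assoc, mul_smul_comm]
    match_scalars <;> field_simp <;> ring
  rw [← sub_nonneg, h2]
  refine add_nonneg (add_nonneg (cj' (add_nonneg (proj_le hU) (smul_nn (by linarith) h.hQ)) hDh)
    (smul_nn (by positivity) (cj' (proj_nn hU) ?_))) (smul_nn ?_ (cj' (proj_nn hU) h.hR))
  · rw [conjTranspose_sub, ct_smul, hDh, h'.hR]
  · rw [sub_nonneg, div_le_div_iff₀ (by norm_num) (by linarith)]
    linarith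

theorem upper (h : Res L Q R) (h' : Res L (Q + U) R') (hU : IsProj U) :
    tr (R - R') ≤ L / (1 + L) * (tr U - L * tr (U * (R * Q * R))) := by
  have hL := h.hL
  have hUU : ∀ x : Mat n, U * (U * x) = U * x := fun x => by rw [← mul_assoc, hU.2]
  obtain ⟨a', ha'⟩ : ∃ a', a' = U * R' * U := ⟨_, rfl⟩
  have ha'h : a'ᴴ = a' := by
    rw [ha', conjTranspose_mul, conjTranspose_mul, hU.1, h'.hR, mul_assoc]
  have hUa : U * a' = a' := by rw [ha', mul_assoc, hUU]
  have haU : a' * U = a' := by rw [ha', mul_assoc, hU.2]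
  have hH : 0 ≤ U - (1 + L) • a' := by
    have h1 : (R' * U)ᴴ * ((1 - U) + L • Q) * (R' * U) = a' - (1 + L) • (a' * a') := by
      have h2 : (1 - U) + L • Q = (1 + L • (Q + U)) - (1 + L) • U := by module
      rw [h2, conjTranspose_mul, hU.1, h'.hR, mul_sub, sub_mul, mul_assoc U R', h'.l, ha']
      simp only [mul_one, smul_mul_assoc, mul_smul_comm, mul_assoc, hUU]
    have h3 : U - (1 + L) • a' = (U - (1 + L) • a') * (U - (1 + L) • a')
        + (1 + L) • (a' - (1 + L) • (a' * a')) := by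
      simp only [mul_sub, sub_mul, smul_mul_assoc, mul_smul_comm, hU.2, hUa, haU]
      module
    rw [h3, ← h1]
    refine add_nonneg (sq_nn ?_) (smul_nn (by linarith)
      (cj (add_nonneg (proj_le hU) (smul_nn (by linarith) h.hQ)) _))
    rw [conjTranspose_sub, ct_smul, hU.1, ha'h]
  have hK : 0 ≤ U * (R - R * R) * U := cj' h.sq_le hU.1
  have h4 : ∀ x : Mat n, L • (a' * (R * x)) = U * (R * x) - U * (R' * x) := by
    intro x
    rw [← mul_sub, ← sub_mul, h.diff h', ha']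
    simp only [smul_mul_assoc, mul_smul_comm, mul_assoc]
  have h5 : L • ((U - (1 + L) • a') * (U * (R - R * R) * U))
      = (U - U * (R - R * R) * U) - (1 + L) • (U * (R' * (R * U))) - (U - (1 + L) • a') := by
    have e1 : (U - (1 + L) • a') * (U * (R - R * R) * U) = U * (R * U) - U * (R * (R * U))
        - (1 + L) • (a' * (R * U)) + (1 + L) • (a' * (R * (R * U))) := by
      simp only [mul_sub, sub_mul, smul_mul_assoc, mul_assoc, hUU, ← mul_assoc a' U, haU]
      module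
    rw [e1, smul_add, smul_sub, smul_comm L (1 + L), smul_comm L (1 + L), h4, h4, ha']
    simp only [mul_sub, sub_mul, mul_assoc]
    module
  have h6 := congrArg tr h5
  have h7 := tr_mul_nonneg hH hK
  have h8 := tr_nonneg hH
  have h9 : tr (U * (R - R * R) * U) = L * tr (U * (R * Q * R)) := by
    rw [tr_comm, ← mul_assoc, hU.2, ← h.rqr, mul_smul_comm, tr_smul]
  have h10 : tr (R - R') = L * tr (U * (R' * (R * U))) := by
    rw [h.diff' h', tr_smul, tr_comm U, mul_assoc R', mul_assoc R U U, hU.2, tr_comm R']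
  rw [tr_smul, tr_sub, tr_sub, tr_sub, tr_smul, h9] at h6
  rw [h10, div_mul_eq_mul_div, le_div_iff₀ (by linarith), mul_assoc]
  refine mul_le_mul_of_nonneg_left ?_ (by linarith)
  have h11 := mul_nonneg (show 0 ≤ L by linarith) h7
  linarith

theorem lower (h : Res L Q R) :
    L / (1 + L) * tr Q - (L / (1 + L)) ^ 2 * (nsq Q - tr Q) ≤ tr (1 - R) := by
  have hL := h.hL
  have e1 : Q * R = L⁻¹ • (1 - R) := by rw [← h.qr, smul_smul, inv_mul_cancel₀ (by linarith), one_smul]
  have e2 : R * Q = L⁻¹ • (1 - R) := by rw [← h.rq, smul_smul, inv_mul_cancel₀ (by linarith), one_smul]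
  have h1 : (L / (1 + L)) ^ 2 • ((Q - 1) * (1 - R) * (Q - 1))
      = (1 - R) - (L / (1 + L)) • Q + (L / (1 + L)) ^ 2 • (Q * Q - Q) := by
    simp only [mul_sub, sub_mul, mul_one, one_mul, e1, e2, smul_mul_assoc]
    match_scalars <;> field_simp <;> ring
  have h2 := tr_nonneg (smul_nn (sq_nonneg (L / (1 + L))) (cj' h.le_one
    (show (Q - 1)ᴴ = Q - 1 by rw [conjTranspose_sub, conjTranspose_one, herm h.hQ])))
  rw [h1, tr_add, tr_sub, tr_smul, tr_smul, tr_sub (Q * Q)] at h2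
  rw [nsq, herm h.hQ]
  linarith

end Res

end Pool.Agent.H374Z.RS
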